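import Pool.Agent.Helper76.Func

set_option autoImplicit false

open MeasureTheory Set ENNReal Filter Topology

namespace Pool.Agent.Results.MP_3c9300_gt.SharpSection

open Pool.Agent.Helper76

/-- The `(n - |τ|)`-dimensional volume of the section of `K` by `x + H_τ^⊥`: the Lebesgue
measure on `ℝ^{[n] ∖ τ}` of the set of all `z` such that the point with coordinates `x i`
(`i ∈ τ`) and `z i` (`i ∉ τ`) lies in `K`. -/
noncomputable def sectionVol {n : ℕ} (K : Set (Fin n → ℝ)) (τ : Finset (Fin n))
    (x : Fin n → ℝ) : ℝ≥0∞ :=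
  volume {z : ↥(τᶜ) → ℝ | Function.updateFinset x τᶜ z ∈ K}

section

variable {n : ℕ} {K : Set (Fin n → ℝ)}

/-- The indicator function of `K`. -/
noncomputable def F (K : Set (Fin n → ℝ)) : (Fin n → ℝ) → ℝ≥0∞ := indicator K 1

lemma measurable_F (hK : IsCompact K) : Measurable (F K) :=
  measurable_one.indicator hK.measurableSet

lemma sectionVol_eq (hK : IsCompact K) (τ : Finset (Fin n)) (x : Fin n → ℝ) :
    sectionVol K τ x = lmarginal (fun _ => volume) τᶜ (F K) x := by
  unfold sectionVol lmarginal F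
  have h1 : MeasurableSet {z : ↥(τᶜ) → ℝ | Function.updateFinset x τᶜ z ∈ K} :=
    measurable_updateFinset hK.measurableSet
  have h2 : (fun y : ↥(τᶜ) → ℝ => indicator K (1 : (Fin n → ℝ) → ℝ≥0∞)
      (Function.updateFinset x τᶜ y)) =
      indicator {z : ↥(τᶜ) → ℝ | Function.updateFinset x τᶜ z ∈ K} 1 := by
    ext y
    simp [indicator]
  rw [h2, lintegral_indicator_one h1]
  rfl

lemma logconcave (hK : IsCompact K) (hc : Convex ℝ K) (σ : Finset (Fin n)) (x y : Fin n → ℝ)
    {l m : ℝ} (hl : 0 < l) (hm : 0 < m) (hlm : l + m = 1) :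
    (lmarginal (fun _ => volume) σᶜ (F K) x) ^ l * (lmarginal (fun _ => volume) σᶜ (F K) y) ^ m ≤
      lmarginal (fun _ => volume) σᶜ (F K) (l • x + m • y) := by
  have h := barthe_coord (J := Bool) σᶜ (fun _ => σᶜ) (fun _ => le_refl _)
    (fun j => bif j then l else m) (by intro j; cases j <;> simpa) (by
      intro i hi
      rw [Finset.filter_true_of_mem (fun _ _ => hi)]
      simpa using hlm) (F K) (measurable_F hK) (fun _ => F K) (fun _ => measurable_F hK)
    (l • x + m • y) (fun j => bif j then x else y) (by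
      intro z w hz hw hzw
      have hzw' : z = l • w true + m • w false := by
        ext i
        by_cases hi : i ∈ σᶜ
        · rw [hzw i hi, Finset.filter_true_of_mem (fun _ _ => hi)]
          simp
        · rw [hz i hi]
          simp [hw true i hi, hw false i hi]
      rw [Fintype.prod_bool]
      simp only [cond_true, cond_false, F]
      by_cases h1 : w true ∈ K
      · by_cases h2 : w false ∈ K
        · have h3 : z ∈ K := by
            rw [hzw']
            exact hc h1 h2 hl.le hm.le hlm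
          rw [indicator_of_mem h1, indicator_of_mem h2, indicator_of_mem h3]
          simp
        · rw [indicator_of_notMem h2, ENNReal.zero_rpow_of_pos hm, mul_zero]
          exact bot_le
      · rw [indicator_of_notMem h1, ENNReal.zero_rpow_of_pos hl, zero_mul]
        exact bot_le)
  rw [Fintype.prod_bool] at h
  simpa using h

lemma exists_bound (hK : IsCompact K) : ∃ R : ℝ, 0 < R ∧ ∀ x ∈ K, ‖x‖ ≤ R := by
  obtain ⟨R, hR⟩ := hK.isBounded.exists_norm_le
  exact ⟨max R 1, by positivity, fun x hx => (hR x hx).trans (le_max_left _ _)⟩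

lemma sup_ne_top (hK : IsCompact K) (σ : Finset (Fin n)) :
    (⨆ x, sectionVol K σ x) ≠ ∞ := by
  obtain ⟨R, hR, hKR⟩ := exists_bound hK
  refine ne_top_of_le_ne_top (b := volume (Metric.closedBall (0 : ↥(σᶜ) → ℝ) R)) ?_ ?_
  · exact (isCompact_closedBall _ _).measure_ne_top
  · refine iSup_le fun x => ?_
    unfold sectionVol
    apply measure_mono
    intro z hz
    rw [mem_closedBall_zero_iff, pi_norm_le_iff_of_nonneg hR.le]
    intro i
    have h1 := hKR _ hz
    have h2 := norm_le_pi_norm (Function.updateFinset x σᶜ z) i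
    have h3 : Function.updateFinset x σᶜ z i = z i := by
      simp only [Function.updateFinset]
      rw [dif_pos i.2]
    rw [h3] at h2
    exact h2.trans h1

lemma marginal_univ (hK : IsCompact K) (σ : Finset (Fin n)) :
    lmarginal (fun _ => volume) σ (lmarginal (fun _ => volume) σᶜ (F K)) 0 = volume K := by
  rw [← lmarginal_union (fun _ => volume) (F K) (measurable_F hK) disjoint_compl_right,
    Finset.union_compl, lmarginal_univ]
  simp only [F]
  rw [lintegral_indicator_one hK.measurableSet]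
  rfl

lemma sup_ne_zero (hK : IsCompact K) (hint : (interior K).Nonempty) (σ : Finset (Fin n)) :
    (⨆ x, sectionVol K σ x) ≠ 0 := by
  intro h0
  have h1 : ∀ x, lmarginal (fun _ => volume) σᶜ (F K) x = 0 := by
    intro x
    rw [← sectionVol_eq hK]
    exact le_antisymm ((le_iSup _ x).trans h0.le) bot_le
  have h2 : volume K = 0 := by
    rw [← marginal_univ hK σ]
    unfold lmarginal at h1 ⊢
    simp only [h1]
    simp
  have h3 : 0 < volume K := (isOpen_interior.measure_pos volume hint).trans_le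
    (measure_mono interior_subset)
  exact h3.ne' h2

end

section

variable {n : ℕ} {K : Set (Fin n → ℝ)}

lemma amgm_pow (k : ℕ) {a b l m : ℝ} (ha : 0 < a) (hb : 0 < b) (hl : 0 < l) (hm : 0 < m)
    (hlm : l + m = 1) :
    ((l * a + m * b) ^ k)⁻¹ ≤ ((a ^ k)⁻¹) ^ l * ((b ^ k)⁻¹) ^ m := by
  have h1 := Real.geom_mean_le_arith_mean2_weighted hl.le hm.le ha.le hb.le hlm
  have h2 : ((a ^ k)⁻¹) ^ l * ((b ^ k)⁻¹) ^ m = ((a ^ l * b ^ m) ^ k)⁻¹ := by
    rw [Real.inv_rpow (by positivity), Real.inv_rpow (by positivity), ← mul_inv]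
    congr 1
    rw [mul_pow, ← Real.rpow_natCast, ← Real.rpow_natCast, ← Real.rpow_natCast,
      ← Real.rpow_natCast, ← Real.rpow_mul ha.le, ← Real.rpow_mul hb.le, ← Real.rpow_mul ha.le,
      ← Real.rpow_mul hb.le, mul_comm (k : ℝ) l, mul_comm (k : ℝ) m]
  rw [h2]
  gcongr

/-- The normalised section function, supported on the coordinate subspace of `σ`. -/
noncomputable def sf (K : Set (Fin n → ℝ)) (σ : Finset (Fin n)) : (Fin n → ℝ) → ℝ≥0∞ :=
  indicator {x | ∀ i, i ∉ σ → x i = 0}
    (fun x => lmarginal (fun _ => volume) σᶜ (F K) x / (⨆ x, sectionVol K σ x))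

lemma measurable_sf (hK : IsCompact K) (σ : Finset (Fin n)) : Measurable (sf K σ) := by
  refine Measurable.indicator ?_ ?_
  · exact ((measurable_F hK).lmarginal (fun _ => volume)).div_const _
  · have : {x : Fin n → ℝ | ∀ i, i ∉ σ → x i = 0} = ⋂ i, ⋂ (_ : i ∉ σ), {x | x i = 0} := by
      ext x; simp
    rw [this]
    exact MeasurableSet.iInter fun i => MeasurableSet.iInter fun _ =>
      measurableSet_eq_fun (measurable_pi_apply i) measurable_const

lemma sf_le_one (hK : IsCompact K) (σ : Finset (Fin n)) (x : Fin n → ℝ) : sf K σ x ≤ 1 := by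
  unfold sf
  by_cases hx : x ∈ {x : Fin n → ℝ | ∀ i, i ∉ σ → x i = 0}
  · rw [indicator_of_mem hx]
    refine ENNReal.div_le_of_le_mul ?_
    rw [one_mul, ← sectionVol_eq hK]
    exact le_iSup (sectionVol K σ) x
  · rw [indicator_of_notMem hx]
    exact bot_le

lemma sf_supp (hK : IsCompact K) (σ : Finset (Fin n)) :
    ∃ R : ℝ, 0 < R ∧ ∀ x, sf K σ x ≠ 0 → ‖x‖ ≤ R := by
  obtain ⟨R, hR, hKR⟩ := exists_bound hK
  refine ⟨R, hR, fun x hx => ?_⟩
  have hmem : x ∈ {x : Fin n → ℝ | ∀ i, i ∉ σ → x i = 0} := by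
    by_contra h
    exact hx (indicator_of_notMem h _)
  have h1 : lmarginal (fun _ => volume) σᶜ (F K) x ≠ 0 := by
    intro h0
    apply hx
    unfold sf
    rw [indicator_of_mem hmem, h0, ENNReal.zero_div]
  have h2 : ∃ z : ↥(σᶜ) → ℝ, Function.updateFinset x σᶜ z ∈ K := by
    by_contra hcon
    push Not at hcon
    apply h1
    rw [← sectionVol_eq hK]
    unfold sectionVol
    have : {z : ↥(σᶜ) → ℝ | Function.updateFinset x σᶜ z ∈ K} = ∅ := by
      ext z; simpa using hcon z
    rw [this]; simp
  obtain ⟨z, hz⟩ := h2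
  have h3 := hKR _ hz
  rw [pi_norm_le_iff_of_nonneg hR.le]
  intro i
  by_cases hi : i ∈ σ
  · have h4 := norm_le_pi_norm (Function.updateFinset x σᶜ z) i
    have h5 : Function.updateFinset x σᶜ z i = x i := by
      simp [Function.updateFinset, hi]
    rw [h5] at h4
    exact h4.trans h3
  · rw [hmem i hi, norm_zero]; exact hR.le

lemma sf_conc (hK : IsCompact K) (hc : Convex ℝ K) (hint : (interior K).Nonempty)
    (σ : Finset (Fin n)) (d : ℕ) : Conc d (sf K σ) := by
  intro x y l m a b hl hm hlm ha hb hx hy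
  have hM0 := sup_ne_zero hK hint σ
  have hMt := sup_ne_top hK σ
  set M := ⨆ x, sectionVol K σ x with hM
  have hpos : ∀ {c : ℝ}, 0 < c → 0 < ENNReal.ofReal ((c ^ (d + 1))⁻¹) := fun hc =>
    ENNReal.ofReal_pos.2 (by positivity)
  have hxm : x ∈ {x : Fin n → ℝ | ∀ i, i ∉ σ → x i = 0} := by
    by_contra h
    have : sf K σ x = 0 := indicator_of_notMem h _
    rw [this] at hx
    exact absurd (hpos ha) (not_lt.2 hx)
  have hym : y ∈ {x : Fin n → ℝ | ∀ i, i ∉ σ → x i = 0} := by
    by_contra h
    have : sf K σ y = 0 := indicator_of_notMem h _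
    rw [this] at hy
    exact absurd (hpos hb) (not_lt.2 hy)
  have hzm : l • x + m • y ∈ {x : Fin n → ℝ | ∀ i, i ∉ σ → x i = 0} := by
    intro i hi
    simp [hxm i hi, hym i hi]
  unfold sf at hx hy ⊢
  rw [indicator_of_mem hxm] at hx
  rw [indicator_of_mem hym] at hy
  rw [indicator_of_mem hzm]
  rw [← hM] at hx hy ⊢
  have h1 := logconcave hK hc σ x y hl hm hlm
  set fx := lmarginal (fun _ => volume) σᶜ (F K) x
  set fy := lmarginal (fun _ => volume) σᶜ (F K) y
  set fz := lmarginal (fun _ => volume) σᶜ (F K) (l • x + m • y)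
  have h2 : (fx / M) ^ l * (fy / M) ^ m ≤ fz / M := by
    rw [ENNReal.div_rpow_of_nonneg _ _ hl.le, ENNReal.div_rpow_of_nonneg _ _ hm.le]
    have h3 : fx ^ l / M ^ l * (fy ^ m / M ^ m) = fx ^ l * fy ^ m / M := by
      have h4 : M ^ l * M ^ m = M := by
        rw [← ENNReal.rpow_add _ _ hM0 hMt, hlm, ENNReal.rpow_one]
      conv_rhs => rw [← h4]
      simp only [div_eq_mul_inv]
      rw [ENNReal.mul_inv]
      · ring
      · left
        simp only [ne_eq, ENNReal.rpow_eq_zero_iff]
        push Not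
        exact ⟨fun h => absurd h hM0, fun h => absurd h hMt⟩
      · left
        exact ENNReal.rpow_ne_top_of_nonneg hl.le hMt
    rw [h3]
    gcongr
  refine le_trans ?_ h2
  calc ENNReal.ofReal (((l * a + m * b) ^ (d + 1))⁻¹)
      ≤ ENNReal.ofReal (((a ^ (d + 1))⁻¹) ^ l * ((b ^ (d + 1))⁻¹) ^ m) :=
        ENNReal.ofReal_le_ofReal (amgm_pow (d + 1) ha hb hl hm hlm)
    _ = (ENNReal.ofReal ((a ^ (d + 1))⁻¹)) ^ l * (ENNReal.ofReal ((b ^ (d + 1))⁻¹)) ^ m := by
        rw [ENNReal.ofReal_mul (by positivity), ENNReal.ofReal_rpow_of_pos (by positivity),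
          ENNReal.ofReal_rpow_of_pos (by positivity)]
    _ ≤ _ := by gcongr

lemma sf_marginal (hK : IsCompact K) (σ τ : Finset (Fin n)) (hτ : τ ⊆ σ) :
    lmarginal (fun _ => volume) (σ \ τ) (sf K σ) 0 =
      sectionVol K τ 0 / (⨆ x, sectionVol K σ x) := by
  have h1 : lmarginal (fun _ => volume) (σ \ τ) (sf K σ) 0 =
      lmarginal (fun _ => volume) (σ \ τ) (fun x => lmarginal (fun _ => volume) σᶜ (F K) x *
        (⨆ x, sectionVol K σ x)⁻¹) 0 := by
    unfold lmarginal
    refine lintegral_congr fun y => ?_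
    unfold sf
    rw [indicator_of_mem, div_eq_mul_inv]
    · rfl
    · intro i hi
      have : i ∉ σ \ τ := fun h => hi (Finset.mem_sdiff.1 h).1
      simp [Function.updateFinset, this]
  have h2 : lmarginal (fun _ => volume) (σ \ τ) (fun x => lmarginal (fun _ => volume) σᶜ (F K) x *
        (⨆ x, sectionVol K σ x)⁻¹) 0 =
      lmarginal (fun _ => volume) (σ \ τ) (lmarginal (fun _ => volume) σᶜ (F K)) 0 *
        (⨆ x, sectionVol K σ x)⁻¹ := by
    have hm := (measurable_F hK).lmarginal (s := σᶜ) (fun _ => volume)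
    conv_lhs => unfold lmarginal
    conv_rhs => unfold lmarginal
    rw [lintegral_mul_const]
    exact hm.comp measurable_updateFinset
  have h3 : lmarginal (fun _ => volume) (σ \ τ) (lmarginal (fun _ => volume) σᶜ (F K)) 0 =
      sectionVol K τ 0 := by
    rw [sectionVol_eq hK, ← lmarginal_union (fun _ => volume) (F K) (measurable_F hK)]
    · congr 1
      ext i
      simp only [Finset.mem_union, Finset.mem_sdiff, Finset.mem_compl]
      by_cases hi : i ∈ τ
      · simp [hi, hτ hi]
      · simp [hi]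
        tauto
    · rw [Finset.disjoint_left]
      intro i hi
      simp only [Finset.mem_sdiff] at hi
      simp [hi.1]
  rw [h1, h2, h3, div_eq_mul_inv]

/-- The inequality in extended nonnegative reals, for nonempty `σ` and `r = m - s > 0`. -/
lemma main_ennreal (hK : IsCompact K) (hc : Convex ℝ K) (hint : (interior K).Nonempty)
    (σ : Finset (Fin n)) (hσ : σ.Nonempty) {m s r : ℕ} (hr : 0 < r) (hmr : s + r = m)
    (τ : Fin m → Finset (Fin n)) (hsub : ∀ j, τ j ⊆ σ)
    (hcover : ∀ i ∈ σ, (Finset.univ.filter (fun j => i ∈ τ j)).card = s) :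
    ∏ j, (((σ.card - (τ j).card).factorial : ℝ≥0∞) * sectionVol K (τ j) 0) ≤
      ((σ.card.factorial : ℝ≥0∞) * volume K) ^ r * (⨆ x, sectionVol K σ x) ^ s := by
  have hM0 := sup_ne_zero hK hint σ
  have hMt := sup_ne_top hK σ
  obtain ⟨R, hR, hRs⟩ := sf_supp hK σ
  have hcov : ∀ i ∈ σ, (Finset.univ.filter (fun j => i ∈ σ \ τ j)).card = r := by
    intro i hi
    have h1 : Finset.univ.filter (fun j => i ∈ σ \ τ j) =
        Finset.univ.filter (fun j => ¬ i ∈ τ j) := by
      ext j; simp [hi]
    rw [h1]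
    have h2 := Finset.card_filter_add_card_filter_not (s := (Finset.univ : Finset (Fin m)))
      (fun j => i ∈ τ j)
    rw [hcover i hi, Finset.card_univ, Fintype.card_fin] at h2
    omega
  have h := func_ineq σ hσ (fun j => σ \ τ j) (fun j => Finset.sdiff_subset) r hr hcov
    (measurable_sf hK σ) (sf_le_one hK σ) hR hRs (sf_conc hK hc hint σ σ.card)
  have hV : lmarginal (fun _ => volume) σ (sf K σ) 0 = volume K / (⨆ x, sectionVol K σ x) := by
    have h1 := sf_marginal hK σ ∅ (Finset.empty_subset _)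
    rw [Finset.sdiff_empty] at h1
    rw [h1, sectionVol_eq hK, Finset.compl_empty, lmarginal_univ]
    simp only [F]
    rw [lintegral_indicator_one hK.measurableSet]
    rfl
  rw [hV] at h
  have h2 : ∀ j, lmarginal (fun _ => volume) (σ \ τ j) (sf K σ) 0 =
      sectionVol K (τ j) 0 / (⨆ x, sectionVol K σ x) := fun j => sf_marginal hK σ (τ j) (hsub j)
  simp only [h2] at h
  have h3 : ∀ j, (σ \ τ j).card = σ.card - (τ j).card := fun j =>
    Finset.card_sdiff_of_subset (hsub j)
  simp only [h3] at h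
  set M := ⨆ x, sectionVol K σ x
  have h4 := mul_le_mul' h (le_refl (M ^ m))
  have e1 : (∏ j, (((σ.card - (τ j).card).factorial : ℝ≥0∞) * (sectionVol K (τ j) 0 / M))) * M ^ m =
      ∏ j, (((σ.card - (τ j).card).factorial : ℝ≥0∞) * sectionVol K (τ j) 0) := by
    have : M ^ m = ∏ _j : Fin m, M := by simp
    rw [this, ← Finset.prod_mul_distrib]
    refine Finset.prod_congr rfl fun j _ => ?_
    rw [mul_assoc, ENNReal.div_mul_cancel hM0 hMt]
  have e2 : ((σ.card.factorial : ℝ≥0∞) * (volume K / M)) ^ r * M ^ m =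
      ((σ.card.factorial : ℝ≥0∞) * volume K) ^ r * M ^ s := by
    have : M ^ m = M ^ r * M ^ s := by rw [← pow_add, add_comm, hmr]
    rw [this, ← mul_assoc, ← mul_pow, mul_assoc, ENNReal.div_mul_cancel hM0 hMt]
  rw [e1, e2] at h4
  exact h4

end

/-- **Sharp local section inequality.**  For every convex body `K` in `ℝ^n`, every set `σ` of
coordinates and every `s`-cover `τ 1, ..., τ m` of `σ` by subsets of `σ`. -/
theorem result (n : ℕ) (K : Set (Fin n → ℝ)) (hconv : Convex ℝ K) (hcomp : IsCompact K)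
    (hint : (interior K).Nonempty) (σ : Finset (Fin n)) (m s : ℕ)
    (τ : Fin m → Finset (Fin n)) (hsub : ∀ j, τ j ⊆ σ)
    (hcover : ∀ i ∈ σ, (Finset.univ.filter (fun j => i ∈ τ j)).card = s) :
    (∏ j, ((σ.card - (τ j).card).factorial : ℝ)) /
        (σ.card.factorial : ℝ) ^ ((m : ℤ) - (s : ℤ)) *
        ∏ j, (sectionVol K (τ j) 0).toReal ≤
      (volume K).toReal ^ ((m : ℤ) - (s : ℤ)) * (⨆ x, sectionVol K σ x).toReal ^ s := by
  have hVt : volume K ≠ ∞ := hcomp.measure_ne_top
  have hV0 : volume K ≠ 0 := ((isOpen_interior.measure_pos volume hint).trans_le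
    (measure_mono interior_subset)).ne'
  have hV : 0 < (volume K).toReal := ENNReal.toReal_pos hV0 hVt
  have hMt := sup_ne_top hcomp σ
  rcases σ.eq_empty_or_nonempty with rfl | hσ
  · -- trivial case
    have h1 : ∀ j, τ j = ∅ := fun j => Finset.subset_empty.1 (hsub j)
    have h2 : ∀ x : Fin n → ℝ, sectionVol K ∅ x = volume K := by
      intro x
      rw [sectionVol_eq hcomp, Finset.compl_empty, lmarginal_univ]
      simp only [F]
      rw [lintegral_indicator_one hcomp.measurableSet]
      rfl
    have h3 : (⨆ x : Fin n → ℝ, sectionVol K ∅ x) = volume K := by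
      simp only [h2]
      exact iSup_const
    rw [h3]
    simp only [h1, h2]
    simp only [Finset.card_empty, Nat.factorial_zero, Nat.cast_one, Finset.prod_const_one,
      one_zpow, div_one, one_mul, Finset.prod_const, Finset.card_univ, Fintype.card_fin, Nat.sub_self]
    rw [zpow_sub₀ hV.ne', zpow_natCast, zpow_natCast, div_mul_cancel₀ _ (by positivity)]
  · have hsm : s ≤ m := by
      obtain ⟨i, hi⟩ := hσ
      rw [← hcover i hi]
      calc _ ≤ (Finset.univ : Finset (Fin m)).card := Finset.card_filter_le _ _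
        _ = m := by simp
    obtain ⟨r, hr⟩ := Nat.exists_eq_add_of_le hsm
    have hzr : (m : ℤ) - (s : ℤ) = (r : ℤ) := by omega
    rw [hzr, zpow_natCast, zpow_natCast]
    rcases Nat.eq_zero_or_pos r with rfl | hr0
    · -- all members are equal to `σ`
      have hms : m = s := by omega
      have h1 : ∀ j, τ j = σ := by
        intro j
        refine Finset.Subset.antisymm (hsub j) fun i hi => ?_
        have h2 := hcover i hi
        have h3 : (Finset.univ.filter (fun j => i ∈ τ j)) = Finset.univ := by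
          apply Finset.eq_of_subset_of_card_le (Finset.subset_univ _)
          rw [h2, Finset.card_univ, Fintype.card_fin, hms]
        have : j ∈ Finset.univ.filter (fun j => i ∈ τ j) := by rw [h3]; exact Finset.mem_univ j
        exact (Finset.mem_filter.1 this).2
      simp only [h1, Nat.sub_self, Nat.factorial_zero, Nat.cast_one, Finset.prod_const_one,
        pow_zero, div_one, one_mul, Finset.prod_const, Finset.card_univ, Fintype.card_fin]
      rw [hms]
      gcongr
      exact le_iSup (sectionVol K σ) 0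
    · have h := main_ennreal hcomp hconv hint σ hσ hr0 hr.symm τ hsub hcover
      have hfin : ((σ.card.factorial : ℝ≥0∞) * volume K) ^ r * (⨆ x, sectionVol K σ x) ^ s ≠ ∞ :=
        ENNReal.mul_ne_top (ENNReal.pow_ne_top (ENNReal.mul_ne_top (ENNReal.natCast_ne_top _) hVt))
          (ENNReal.pow_ne_top hMt)
      have h2 := ENNReal.toReal_mono hfin h
      rw [ENNReal.toReal_prod, ENNReal.toReal_mul, ENNReal.toReal_pow, ENNReal.toReal_pow,
        ENNReal.toReal_mul, ENNReal.toReal_natCast] at h2
      simp only [ENNReal.toReal_mul, ENNReal.toReal_natCast] at h2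
      rw [Finset.prod_mul_distrib, mul_pow] at h2
      have hf : (0:ℝ) < (σ.card.factorial : ℝ) ^ r := by positivity
      rw [div_mul_eq_mul_div, div_le_iff₀ hf]
      calc (∏ j, ((σ.card - (τ j).card).factorial : ℝ)) * ∏ j, (sectionVol K (τ j) 0).toReal
          ≤ (σ.card.factorial : ℝ) ^ r * (volume K).toReal ^ r *
            (⨆ x, sectionVol K σ x).toReal ^ s := h2
        _ = _ := by ring

end Pool.Agent.Results.MP_3c9300_gt.SharpSection
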